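import Pool.Agent.Helper8.HX.Defs

/-!
Pieces K7a and K9: closed `E`-valued 2-forms.
-/

set_option autoImplicit false

open scoped Manifold ContDiff
open MeasureTheory

namespace Pool.Agent.Helper45.HX

open Pool.Agent.Helper8.DC Pool.Agent.Helper8.DA Pool.Agent.Helper8.DE Pool.Agent.Helper8.HX

theorem comp_smooth {T : E4 → Fin 4 → Fin 4 → R3} {U : Set E4} (hT : ContDiffOn ℝ ∞ T U)
    (m n : Fin 4) (a : Fin 3) : ContDiffOn ℝ ∞ (fun z => T z m n a) U :=
  (contDiffOn_pi.1 ((contDiffOn_pi.1 ((contDiffOn_pi.1 hT) m)) n)) a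

theorem closed_comp {A : E4 → Fin 4 → R3} {T : E4 → Fin 4 → Fin 4 → R3} {U : Set E4}
    (hU : IsOpen U) (hT : ContDiffOn ℝ ∞ T U) {z : E4} (hz : z ∈ U) (h : CovClosed A T z)
    (l m n : Fin 4) (a : Fin 3) :
    pd l (fun w => T w m n a) z + pd m (fun w => T w n l a) z + pd n (fun w => T w l m a) z +
      crossProduct (A z l) (T z m n) a + crossProduct (A z m) (T z n l) a +
      crossProduct (A z n) (T z l m) a = 0 := by
  have hTd : ∀ p q : Fin 4, DifferentiableAt ℝ (fun w => T w p q) z := fun p q =>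
    (((contDiffOn_pi.1 ((contDiffOn_pi.1 hT) p)) q).contDiffAt (hU.mem_nhds hz)).differentiableAt
      (by simp)
  have h1 := congrFun (h l m n) a
  simp only [Pi.add_apply, Pi.zero_apply] at h1
  rw [ph_pd_comp (hTd m n), ph_pd_comp (hTd n l), ph_pd_comp (hTd l m)] at h1
  exact h1

/-- K7a -/
theorem constrH {N : ℕ} (A : E4 → Fin 4 → R3) (B : E4 → Fin 4 → Matrix (Fin N) (Fin N) ℝ)
    (s : E4 → Fin N → R3) (T : E4 → Fin 4 → Fin 4 → R3) (U : Set E4) (hU : IsOpen U)
    (_hA : ContDiffOn ℝ ∞ A U) (hs : ContDiffOn ℝ ∞ s U) (hT : ContDiffOn ℝ ∞ T U)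
    (hTs : ∀ z ∈ U, Skew (T z)) (y : E4) (hy : y ∈ U) (hTc : CovClosed A T y)
    (hc : ClosedAt B (fun z r l m => ∑ a, s z r a * T z l m a) y) (r : Fin N) :
    Constr (covL A B s y r) (T y) := by
  have hUy := hU.mem_nhds hy
  have hsr : ContDiffOn ℝ ∞ (fun z => s z r) U := (contDiffOn_pi.1 hs) r
  have hsd : DifferentiableAt ℝ (fun z => s z r) y :=
    (hsr.contDiffAt hUy).differentiableAt (by simp)
  have hsc : ∀ a, DifferentiableAt ℝ (fun z => s z r a) y := fun a => (differentiableAt_pi.1 hsd) a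
  have hTd : ∀ m n a, DifferentiableAt ℝ (fun z => T z m n a) y := fun m n a =>
    ((comp_smooth hT m n a).contDiffAt hUy).differentiableAt (by simp)
  have hsk : ∀ m n a, T y m n a = - T y n m a := by
    intro m n a
    have := congrFun (hTs y hy m n) a
    simpa using this
  refine Helper56.DA.constr_of_cyclic _ _ hsk ?_
  intro l m n
  have h := hc r l m n
  have hform : ∀ l m n, pd l (fun z => ∑ a, s z r a * T z m n a) y
      = ∑ a, (pd l (fun z => s z r a) y * T y m n a + s y r a * pd l (fun z => T z m n a) y) := by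
    intro l m n
    have h1 : (fun z => ∑ a, s z r a * T z m n a) =
        fun z => s z r 0 * T z m n 0 + s z r 1 * T z m n 1 + s z r 2 * T z m n 2 := by
      funext z
      simp only [Fin.sum_univ_three]
    rw [h1, ph_pd_add (((hsc 0).fun_mul (hTd m n 0)).fun_add ((hsc 1).fun_mul (hTd m n 1)))
      ((hsc 2).fun_mul (hTd m n 2)),
      ph_pd_add ((hsc 0).fun_mul (hTd m n 0)) ((hsc 1).fun_mul (hTd m n 1)),
      ph_pd_mul (hsc 0) (hTd m n 0), ph_pd_mul (hsc 1) (hTd m n 1),
      ph_pd_mul (hsc 2) (hTd m n 2), Fin.sum_univ_three]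
  have hB : ∀ k p q : Fin 4, ∑ t, B y k r t * ∑ a, s y t a * T y p q a =
      ∑ a, (∑ t, B y k r t • s y t) a * T y p q a := by
    intro k p q
    simp only [Finset.sum_apply, Pi.smul_apply, smul_eq_mul, Finset.sum_mul, Finset.mul_sum]
    rw [Finset.sum_comm]
    exact Finset.sum_congr rfl fun a _ => Finset.sum_congr rfl fun t _ => by ring
  have hc0 : ∀ k a, covL A B s y r k a = pd k (fun z => s z r a) y +
      crossProduct (A y k) (s y r) a + (∑ t, B y k r t • s y t) a := by
    intro k a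
    unfold covL cov
    simp only [Pi.add_apply]
    rw [ph_pd_comp hsd]
  unfold dcov at h
  rw [hB, hB, hB, hform, hform, hform] at h
  have c0 := closed_comp hU hT hy hTc l m n 0
  have c1 := closed_comp hU hT hy hTc l m n 1
  have c2 := closed_comp hU hT hy hTc l m n 2
  simp only [hc0]
  simp only [Fin.sum_univ_three] at h ⊢
  simp only [cross_apply, Matrix.cons_val_zero, Matrix.cons_val_one, Matrix.cons_val_two,
    Matrix.head_cons, Matrix.tail_cons] at c0 c1 c2 ⊢
  linear_combination h - s y r 0 * c0 - s y r 1 * c1 - s y r 2 * c2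

/-- the closedness equation in ordered form, `T_lm` with `l < m` only -/
theorem closed_ord {A : E4 → Fin 4 → R3} {T : E4 → Fin 4 → Fin 4 → R3} {U : Set E4}
    (hU : IsOpen U) (hT : ContDiffOn ℝ ∞ T U) (hTs : ∀ z ∈ U, Skew (T z)) {z : E4} (hz : z ∈ U)
    (h : CovClosed A T z) (l m n : Fin 4) (a : Fin 3) :
    pd l (fun w => T w m n a) z - pd m (fun w => T w l n a) z + pd n (fun w => T w l m a) z +
      (crossProduct (A z l) (T z m n) a - crossProduct (A z m) (T z l n) a +
      crossProduct (A z n) (T z l m) a) = 0 := by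
  have h1 := closed_comp hU hT hz h l m n a
  have h2 : pd m (fun w => T w n l a) z = - pd m (fun w => T w l n a) z := by
    have e1 : (fun w => T w n l a) =ᶠ[nhds z] fun w => - T w l n a := by
      filter_upwards [hU.mem_nhds hz] with w hw
      have := congrFun (hTs w hw n l) a
      simpa using this
    rw [ph_pd_congr e1]
    unfold pd
    rw [fderiv_fun_neg]
    rfl
  have h3 : T z n l = - T z l n := hTs z hz n l
  rw [h2, h3] at h1
  have h4 : crossProduct (A z m) (-T z l n) a = - crossProduct (A z m) (T z l n) a := by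
    rw [map_neg]
    rfl
  rw [h4] at h1
  linear_combination h1

/-- the derivative of the ordered equation, for a component given by `(X × Y)_a = X_b Y_c - X_c Y_b` -/
theorem closed_deriv {A : E4 → Fin 4 → R3} {T : E4 → Fin 4 → Fin 4 → R3} {U : Set E4}
    (hU : IsOpen U) (hA : ContDiffOn ℝ ∞ A U) (hT : ContDiffOn ℝ ∞ T U)
    (hTs : ∀ z ∈ U, Skew (T z)) (hTc : ∀ z ∈ U, CovClosed A T z) {y : E4} (hy : y ∈ U)
    (a b c : Fin 3) (habc : ∀ X Y : R3, crossProduct X Y a = X b * Y c - X c * Y b)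
    (k l m n : Fin 4) :
    pd k (fun z => pd l (fun w => T w m n a) z) y - pd k (fun z => pd m (fun w => T w l n a) z) y +
      pd k (fun z => pd n (fun w => T w l m a) z) y +
      ((pd k (fun z => A z l b) y * T y m n c + A y l b * pd k (fun z => T z m n c) y -
        (pd k (fun z => A z l c) y * T y m n b + A y l c * pd k (fun z => T z m n b) y)) -
       (pd k (fun z => A z m b) y * T y l n c + A y m b * pd k (fun z => T z l n c) y -
        (pd k (fun z => A z m c) y * T y l n b + A y m c * pd k (fun z => T z l n b) y)) +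
       (pd k (fun z => A z n b) y * T y l m c + A y n b * pd k (fun z => T z l m c) y -
        (pd k (fun z => A z n c) y * T y l m b + A y n c * pd k (fun z => T z l m b) y))) = 0 := by
  have hUy := hU.mem_nhds hy
  have hAc : ∀ m a, ContDiffOn ℝ ∞ (fun z => A z m a) U := fun m a =>
    (contDiffOn_pi.1 ((contDiffOn_pi.1 hA) m)) a
  have hAd : ∀ m a, DifferentiableAt ℝ (fun z => A z m a) y := fun m a =>
    ((hAc m a).contDiffAt hUy).differentiableAt (by simp)
  have hTd : ∀ m n a, DifferentiableAt ℝ (fun z => T z m n a) y := fun m n a =>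
    ((comp_smooth hT m n a).contDiffAt hUy).differentiableAt (by simp)
  have hpd : ∀ k m n a, DifferentiableAt ℝ (fun z => pd k (fun w => T w m n a) z) y :=
    fun k m n a =>
      ((ph_smooth_pd hU (comp_smooth hT m n a) k).contDiffAt hUy).differentiableAt (by simp)
  have hcr : ∀ p q r, DifferentiableAt ℝ (fun z => A z p b * T z q r c - A z p c * T z q r b) y :=
    fun p q r => ((hAd _ _).fun_mul (hTd _ _ _)).fun_sub ((hAd _ _).fun_mul (hTd _ _ _))
  have hcrd : ∀ p q r, pd k (fun z => A z p b * T z q r c - A z p c * T z q r b) y =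
      pd k (fun z => A z p b) y * T y q r c + A y p b * pd k (fun z => T z q r c) y -
        (pd k (fun z => A z p c) y * T y q r b + A y p c * pd k (fun z => T z q r b) y) := by
    intro p q r
    rw [ph_pd_sub ((hAd _ _).fun_mul (hTd _ _ _)) ((hAd _ _).fun_mul (hTd _ _ _)),
      ph_pd_mul (hAd _ _) (hTd _ _ _), ph_pd_mul (hAd _ _) (hTd _ _ _)]
  have h0 : (fun z => pd l (fun w => T w m n a) z - pd m (fun w => T w l n a) z +
      pd n (fun w => T w l m a) z +
      ((A z l b * T z m n c - A z l c * T z m n b) - (A z m b * T z l n c - A z m c * T z l n b) +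
        (A z n b * T z l m c - A z n c * T z l m b))) =ᶠ[nhds y] fun _ => (0 : ℝ) := by
    filter_upwards [hUy] with z hz
    have := closed_ord hU hT hTs hz (hTc z hz) l m n a
    rw [habc, habc, habc] at this
    exact this
  have h1 := ph_pd_congr h0 k
  have h2 : pd k (fun _ : E4 => (0 : ℝ)) y = 0 := by
    unfold pd
    simp
  rw [h2] at h1
  rw [ph_pd_add (((hpd _ _ _ _).fun_sub (hpd _ _ _ _)).fun_add (hpd _ _ _ _))
      (((hcr _ _ _).fun_sub (hcr _ _ _)).fun_add (hcr _ _ _)),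
    ph_pd_add ((hpd _ _ _ _).fun_sub (hpd _ _ _ _)) (hpd _ _ _ _),
    ph_pd_sub (hpd _ _ _ _) (hpd _ _ _ _),
    ph_pd_add ((hcr _ _ _).fun_sub (hcr _ _ _)) (hcr _ _ _),
    ph_pd_sub (hcr _ _ _) (hcr _ _ _), hcrd, hcrd, hcrd] at h1
  exact h1

theorem cross_wedge {A : E4 → Fin 4 → R3} {T : E4 → Fin 4 → Fin 4 → R3} {U : Set E4}
    (hU : IsOpen U) (hA : ContDiffOn ℝ ∞ A U) (hT : ContDiffOn ℝ ∞ T U)
    (hTs : ∀ z ∈ U, Skew (T z)) (hTc : ∀ z ∈ U, CovClosed A T z) {y : E4} (hy : y ∈ U)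
    (a b c : Fin 3) (ha : ∀ X Y : R3, crossProduct X Y a = X b * Y c - X c * Y b)
    (hb : ∀ X Y : R3, crossProduct X Y b = X c * Y a - X a * Y c)
    (hc : ∀ X Y : R3, crossProduct X Y c = X a * Y b - X b * Y a) :
    wedge (cmp (curv A y) b) (cmp (T y) c) = wedge (cmp (curv A y) c) (cmp (T y) b) := by
  have hUy := hU.mem_nhds hy
  have hAd : DifferentiableAt ℝ A y := (hA.contDiffAt hUy).differentiableAt (by simp)
  have hsym : ∀ k l m n, pd k (fun z => pd l (fun w => T w m n a) z) y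
      = pd l (fun z => pd k (fun w => T w m n a) z) y := fun k l m n =>
    ph_symm hU (comp_smooth hT m n a) hy k l
  have d0 := closed_deriv hU hA hT hTs hTc hy a b c ha 0 1 2 3
  have d1 := closed_deriv hU hA hT hTs hTc hy a b c ha 1 0 2 3
  have d2 := closed_deriv hU hA hT hTs hTc hy a b c ha 2 0 1 3
  have d3 := closed_deriv hU hA hT hTs hTc hy a b c ha 3 0 1 2
  have eb := fun l m n => closed_ord hU hT hTs hy (hTc y hy) l m n b
  have ec := fun l m n => closed_ord hU hT hTs hy (hTc y hy) l m n c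
  have eb0 := eb 1 2 3
  have eb1 := eb 0 2 3
  have eb2 := eb 0 1 3
  have eb3 := eb 0 1 2
  have ec0 := ec 1 2 3
  have ec1 := ec 0 2 3
  have ec2 := ec 0 1 3
  have ec3 := ec 0 1 2
  clear eb ec
  rw [hb, hb, hb] at eb0 eb1 eb2 eb3
  rw [hc, hc, hc] at ec0 ec1 ec2 ec3
  rw [hsym 1 0 2 3] at d1
  rw [hsym 2 0 1 3, hsym 2 1 0 3] at d2
  rw [hsym 3 0 1 2, hsym 3 1 0 2, hsym 3 2 0 1] at d3
  simp only [wedge, Pool.Agent.Helper8.DC.cmp, ph_curv hAd, hb, hc]
  linear_combination d0 - d1 + d2 - d3 +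
    (A y 0 b * ec0 - A y 0 c * eb0) - (A y 1 b * ec1 - A y 1 c * eb1) +
    (A y 2 b * ec2 - A y 2 c * eb2) - (A y 3 b * ec3 - A y 3 c * eb3)

/-- K9: `d_A² T = F × T = 0`, so `F_a ∧ T_b` is symmetric. -/
theorem crossGram_symm (A : E4 → Fin 4 → R3) (T : E4 → Fin 4 → Fin 4 → R3) (U : Set E4)
    (hU : IsOpen U) (hA : ContDiffOn ℝ ∞ A U) (hT : ContDiffOn ℝ ∞ T U)
    (hTs : ∀ z ∈ U, Skew (T z)) (hTc : ∀ z ∈ U, CovClosed A T z) (y : E4) (hy : y ∈ U) :
    (crossGram (curv A y) (T y)).transpose = crossGram (curv A y) (T y) := by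
  have h0 : ∀ X Y : R3, crossProduct X Y 0 = X 1 * Y 2 - X 2 * Y 1 := fun X Y => by
    simp [cross_apply]
  have h1 : ∀ X Y : R3, crossProduct X Y 1 = X 2 * Y 0 - X 0 * Y 2 := fun X Y => by
    simp [cross_apply]
  have h2 : ∀ X Y : R3, crossProduct X Y 2 = X 0 * Y 1 - X 1 * Y 0 := fun X Y => by
    simp [cross_apply]
  have w0 := cross_wedge hU hA hT hTs hTc hy 0 1 2 h0 h1 h2
  have w1 := cross_wedge hU hA hT hTs hTc hy 1 2 0 h1 h2 h0
  have w2 := cross_wedge hU hA hT hTs hTc hy 2 0 1 h2 h0 h1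
  ext i j
  rw [Matrix.transpose_apply]
  unfold crossGram
  fin_cases i <;> fin_cases j
  · rfl
  · exact w2.symm
  · exact w1
  · exact w2
  · rfl
  · exact w0.symm
  · exact w1.symm
  · exact w0
  · rfl

end Pool.Agent.Helper45.HX
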